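import Pool.Agent.H385R2.PrimLS2
import Pool.Agent.H385R2.PrimMass
import Pool.Agent.Helper923.PNT

open Complex Filter Topology Set MeasureTheory

namespace H385

namespace BV

open ArithmeticFunction (vonMangoldt)

/-- prime powers of the primes of a finite set -/
lemma sum_dvd_le (S : Finset ℕ) (hS : ∀ p ∈ S, p.Prime) (N : ℕ) (hN : 1 ≤ N) (A : Finset ℕ)
    (hA : ∀ n ∈ A, 1 ≤ n ∧ n ≤ N) (h : ∀ n ∈ A, vonMangoldt n ≠ 0 → ∃ p ∈ S, p ∣ n) :
    ∑ n ∈ A, vonMangoldt n ≤ S.card * Real.log N := by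
  classical
  have h1 : ∑ n ∈ A, vonMangoldt n ≤
      ∑ m ∈ S.biUnion fun p ↦ Finset.image (p ^ ·) (Finset.Icc 1 (p.log N)), vonMangoldt m := by
    rw [← Finset.sum_filter_ne_zero]
    apply Finset.sum_le_sum_of_subset_of_nonneg
    · intro n hn
      rw [Finset.mem_filter] at hn
      obtain ⟨h1, h4⟩ := hn
      have h5 := ArithmeticFunction.vonMangoldt_ne_zero_iff.1 h4
      obtain ⟨p, k, hp, hk, rfl⟩ := (isPrimePow_nat_iff _).1 h5
      obtain ⟨r, hr, hrp⟩ := h _ h1 h4
      have hpr : r = p := (Nat.prime_dvd_prime_iff_eq (hS r hr) hp).1 ((hS r hr).dvd_of_dvd_pow hrp)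
      rw [Finset.mem_biUnion]
      refine ⟨p, hpr ▸ hr, ?_⟩
      rw [Finset.mem_image]
      exact ⟨k, Finset.mem_Icc.2 ⟨hk, Nat.le_log_of_pow_le hp.one_lt (hA _ h1).2⟩, rfl⟩
    · intro n _ _
      exact ArithmeticFunction.vonMangoldt_nonneg
  have h2 : ∑ m ∈ S.biUnion fun p ↦ Finset.image (p ^ ·) (Finset.Icc 1 (p.log N)),
        vonMangoldt m = ∑ p ∈ S, (p.log N : ℝ) * Real.log p := by
    rw [Finset.sum_biUnion]
    · apply Finset.sum_congr rfl
      intro p hp
      have hpp := hS p hp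
      rw [Finset.sum_image fun a _ b _ hab ↦ Nat.pow_right_injective hpp.two_le hab]
      have : ∀ k ∈ Finset.Icc 1 (p.log N), vonMangoldt (p ^ k) = Real.log p := by
        intro k hk
        rw [Finset.mem_Icc] at hk
        rw [ArithmeticFunction.vonMangoldt_apply_pow (by omega),
          ArithmeticFunction.vonMangoldt_apply_prime hpp]
      rw [Finset.sum_congr rfl this]
      simp
    · intro p hp r hr hpr
      have hpp := hS p hp
      have hrr := hS r hr
      simp only [Function.onFun]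
      rw [Finset.disjoint_left]
      intro a ha hb
      rw [Finset.mem_image] at ha hb
      obtain ⟨k, hk, rfl⟩ := ha
      obtain ⟨j, hj, hjk⟩ := hb
      rw [Finset.mem_Icc] at hk hj
      apply hpr
      have h6 : r ∣ p ^ k := by
        rw [← show r ^ j = p ^ k from hjk]
        exact dvd_pow_self r (by omega)
      exact ((Nat.prime_dvd_prime_iff_eq hrr hpp).1 (hrr.dvd_of_dvd_pow h6)).symm
  have h3 : ∀ p ∈ S, (p.log N : ℝ) * Real.log p ≤ Real.log N := by
    intro p hp
    have hpp := hS p hp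
    rw [← Real.log_pow]
    apply Real.log_le_log
    · have := hpp.pos; positivity
    · exact_mod_cast Nat.pow_log_le_self p (by omega)
  calc _ ≤ _ := h1
    _ = _ := h2
    _ ≤ ∑ p ∈ S, Real.log N := Finset.sum_le_sum h3
    _ = S.card * Real.log N := by rw [Finset.sum_const, nsmul_eq_mul]

lemma sum_ncop (q N : ℕ) (hq : 1 ≤ q) (hN : 1 ≤ N) :
    ∑ n ∈ (Finset.Icc 1 N).filter (fun n => ¬ n.Coprime q), vonMangoldt n ≤
      q.primeFactors.card * Real.log N := by
  apply sum_dvd_le q.primeFactors (fun p hp => Nat.prime_of_mem_primeFactors hp) N hN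
  · intro n hn
    exact Finset.mem_Icc.mp (Finset.mem_filter.mp hn).1
  · intro n hn h4
    have h3 := (Finset.mem_filter.mp hn).2
    have h5 := ArithmeticFunction.vonMangoldt_ne_zero_iff.1 h4
    obtain ⟨p, k, hp, hk, rfl⟩ := (isPrimePow_nat_iff _).1 h5
    have hpq : p ∣ q := by
      by_contra hc
      exact h3 (((Nat.Prime.coprime_iff_not_dvd hp).2 hc).pow_left k)
    exact ⟨p, Nat.mem_primeFactors.2 ⟨hp, hpq, by omega⟩, dvd_pow_self p (by omega)⟩

lemma omega_le (q : ℕ) (hq : 1 ≤ q) : (q.primeFactors.card : ℝ) ≤ 2 * Real.log q := by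
  have h1 : 2 ^ q.primeFactors.card ≤ q := by
    calc 2 ^ q.primeFactors.card = ∏ _p ∈ q.primeFactors, 2 := by rw [Finset.prod_const]
      _ ≤ ∏ p ∈ q.primeFactors, p := Finset.prod_le_prod' (fun p hp =>
          (Nat.prime_of_mem_primeFactors hp).two_le)
      _ ≤ q := Nat.le_of_dvd (by omega) (Nat.prod_primeFactors_dvd q)
  have h2 : (q.primeFactors.card : ℝ) * Real.log 2 ≤ Real.log q := by
    rw [← Real.log_pow]
    apply Real.log_le_log (by positivity)
    exact_mod_cast h1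
  have h3 : (1 : ℝ) / 2 ≤ Real.log 2 := by have := Real.log_two_gt_d9; linarith
  have h4 : (0 : ℝ) ≤ q.primeFactors.card := by positivity
  nlinarith

lemma sum_small (R N : ℕ) (hN : 1 ≤ N) :
    ∑ n ∈ (Finset.Icc 1 N).filter (fun n => n.minFac ≤ R), vonMangoldt n ≤ R * Real.log N := by
  have h1 := sum_dvd_le ((Finset.Icc 1 R).filter Nat.Prime)
    (fun p hp => (Finset.mem_filter.mp hp).2) N hN
    ((Finset.Icc 1 N).filter (fun n => n.minFac ≤ R))
    (fun n hn => Finset.mem_Icc.mp (Finset.mem_filter.mp hn).1) (by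
      intro n hn h4
      have h3 := (Finset.mem_filter.mp hn).2
      have hn1 : n ≠ 1 := by
        rintro rfl
        simp at h4
      have hp := Nat.minFac_prime hn1
      exact ⟨n.minFac, Finset.mem_filter.mpr ⟨Finset.mem_Icc.mpr ⟨hp.one_le, h3⟩, hp⟩,
        Nat.minFac_dvd n⟩)
  have h2 : (((Finset.Icc 1 R).filter Nat.Prime).card : ℝ) ≤ R := by
    have := Finset.card_filter_le (Finset.Icc 1 R) Nat.Prime
    rw [Nat.card_Icc] at this
    exact_mod_cast this.trans (by omega)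
  exact h1.trans (mul_le_mul_of_nonneg_right h2 (Real.log_natCast_nonneg N))

lemma psi_eq (N : ℕ) : Chebyshev.psi N = ∑ n ∈ Finset.Icc 1 N, vonMangoldt n := by
  unfold Chebyshev.psi
  rw [Nat.floor_natCast]
  rfl

lemma psi_bounds (ε : ℝ) (hε : 0 < ε) : ∃ x0 : ℝ, 1 ≤ x0 ∧ ∀ x : ℝ, x0 ≤ x →
    (1 - ε) * x ≤ Chebyshev.psi x ∧ Chebyshev.psi x ≤ (1 + ε) * x := by
  have h := Pool.Agent.Helper923.PNT.psi_div_tendsto
  have h1 := h.eventually (Metric.ball_mem_nhds (1 : ℝ) hε)
  obtain ⟨a, ha⟩ := Filter.eventually_atTop.mp h1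
  refine ⟨max a 1, le_max_right _ _, fun x hx => ?_⟩
  have h2 := ha x ((le_max_left _ _).trans hx)
  have hx0 : 0 < x := lt_of_lt_of_le one_pos ((le_max_right _ _).trans hx)
  rw [Real.dist_eq, abs_lt] at h2
  constructor
  · have : 1 - ε ≤ Chebyshev.psi x / x := by linarith [h2.1]
    rwa [le_div_iff₀ hx0] at this
  · have : Chebyshev.psi x / x ≤ 1 + ε := by linarith [h2.2]
    rwa [div_le_iff₀ hx0] at this

lemma lam_sq_le (N : ℕ) : ∑ n ∈ Finset.Icc 1 N, (vonMangoldt n) ^ 2 ≤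
    Real.log N * Chebyshev.psi N := by
  rw [psi_eq, Finset.mul_sum]
  apply Finset.sum_le_sum
  intro n hn
  rw [Finset.mem_Icc] at hn
  rw [sq]
  apply mul_le_mul_of_nonneg_right _ ArithmeticFunction.vonMangoldt_nonneg
  refine ArithmeticFunction.vonMangoldt_le_log.trans ?_
  exact Real.log_le_log (by exact_mod_cast hn.1) (by exact_mod_cast hn.2)

end BV

end H385
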