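import Pool.Agent.H385R7.BV1

open Complex Filter Topology Set MeasureTheory

namespace H385

namespace BV

open ArithmeticFunction (vonMangoldt)

/-- bump function -/
structure Bump (δ : ℝ) (g g1 g2 : ℝ → ℝ) (G : ℝ) : Prop where
  d1 : ∀ x, HasDerivAt g (g1 x) x
  d2 : ∀ x, HasDerivAt g1 (g2 x) x
  c2 : Continuous g2
  s0 : HasCompactSupport g
  s1 : HasCompactSupport g1
  s2 : HasCompactSupport g2
  nn : ∀ x, 0 ≤ g x
  le : ∀ x, g x ≤ 1
  one : ∀ x, 2 * δ ≤ x → x ≤ 1 - 2 * δ → g x = 1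
  zero : ∀ x, x ≤ 0 ∨ 1 ≤ x → g x = 0
  G0 : 0 ≤ G
  hG : ∫ x, |g2 x| ≤ G

lemma bump_exists (δ : ℝ) (hδ : 0 < δ) (hδ1 : δ < 1 / 8) : ∃ g g1 g2 G, Bump δ g g1 g2 G := by
  let b : ContDiffBump (1 / 2 : ℝ) := ⟨1 / 2 - 2 * δ, 1 / 2 - δ, by linarith, by linarith⟩
  have hb : ContDiff ℝ 2 (b : ℝ → ℝ) := b.contDiff
  have hb1 : ContDiff ℝ 1 (deriv (b : ℝ → ℝ)) := by
    have := (contDiff_succ_iff_deriv (n := 1)).mp (by exact_mod_cast hb)
    exact this.2.2
  have hb2 : Continuous (deriv (deriv (b : ℝ → ℝ))) := hb1.continuous_deriv le_rfl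
  refine ⟨b, deriv b, deriv (deriv b), ∫ x, |deriv (deriv (b : ℝ → ℝ)) x|, ?_, ?_, hb2, ?_, ?_, ?_,
    fun x => b.nonneg, fun x => b.le_one, ?_, ?_, ?_, le_rfl⟩
  · intro x
    exact ((hb.differentiable (by norm_num)) x).hasDerivAt
  · intro x
    exact ((hb1.differentiable (by norm_num)) x).hasDerivAt
  · exact b.hasCompactSupport
  · exact b.hasCompactSupport.deriv
  · exact b.hasCompactSupport.deriv.deriv
  · intro x h1 h2
    apply b.one_of_mem_closedBall
    rw [Metric.mem_closedBall, Real.dist_eq, abs_le]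
    constructor <;> simp only [b] <;> linarith
  · intro x h
    apply b.zero_of_le_dist
    rw [Real.dist_eq, le_abs]
    rcases h with h | h
    · right; simp only [b]; linarith
    · left; simp only [b]; linarith
  · exact integral_nonneg (fun _ => abs_nonneg _)

variable {δ : ℝ} {g g1 g2 : ℝ → ℝ} {G : ℝ}

/-- scaled function -/
noncomputable def sc (N : ℕ) (g : ℝ → ℝ) (k : ℕ) (y : ℝ) : ℂ :=
  (((Real.sqrt N)⁻¹ * ((N : ℝ) ^ k)⁻¹ * g (y / N) : ℝ) : ℂ)

lemma sc_C2I (h : Bump δ g g1 g2 G) (N : ℕ) (hN : 1 ≤ N) :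
    C2I (sc N g 0) (sc N g1 1) (sc N g2 2) := by
  have hN0 : (0 : ℝ) < N := by exact_mod_cast hN
  have c0 : Continuous g := continuous_iff_continuousAt.mpr fun x => (h.d1 x).continuousAt
  have c1 : Continuous g1 := continuous_iff_continuousAt.mpr fun x => (h.d2 x).continuousAt
  have cc : ∀ (k : ℕ) (u : ℝ → ℝ), Continuous u → Continuous (sc N u k) := by
    intro k u hu
    unfold sc
    exact Complex.continuous_ofReal.comp (continuous_const.mul (hu.comp (continuous_id.div_const _)))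
  have ci : ∀ (k : ℕ) (u : ℝ → ℝ), Continuous u → HasCompactSupport u →
      Integrable (sc N u k) := by
    intro k u hu hs
    have h1 : Integrable u := hu.integrable_of_hasCompactSupport hs
    have h2 : Integrable (fun y => u (y / N)) := h1.comp_div hN0.ne'
    exact (h2.const_mul _).ofReal
  refine ⟨?_, ?_, cc 2 g2 h.c2, ci 0 g c0 h.s0, ci 1 g1 c1 h.s1, ci 2 g2 h.c2 h.s2⟩
  · intro x
    have h1 : HasDerivAt (fun y : ℝ => y / N) (1 / (N : ℝ)) x := (hasDerivAt_id x).div_const _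
    have h2 := (h.d1 (x / N)).comp x h1
    have h3 := (h2.const_mul ((Real.sqrt N)⁻¹ * ((N : ℝ) ^ 0)⁻¹)).ofReal_comp
    refine h3.congr_deriv ?_
    unfold sc
    congr 1
    rw [pow_one, pow_zero]
    field_simp
  · intro x
    have h1 : HasDerivAt (fun y : ℝ => y / N) (1 / (N : ℝ)) x := (hasDerivAt_id x).div_const _
    have h2 := (h.d2 (x / N)).comp x h1
    have h3 := (h2.const_mul ((Real.sqrt N)⁻¹ * ((N : ℝ) ^ 1)⁻¹)).ofReal_comp
    refine h3.congr_deriv ?_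
    unfold sc
    congr 1
    field_simp

lemma sc_norm (N : ℕ) (u : ℝ → ℝ) (k : ℕ) (y : ℝ) :
    ‖sc N u k y‖ = (Real.sqrt N)⁻¹ * ((N : ℝ) ^ k)⁻¹ * |u (y / N)| := by
  unfold sc
  rw [Complex.norm_real, norm_mul, Real.norm_of_nonneg (by positivity), Real.norm_eq_abs]

lemma sc_int2 (h : Bump δ g g1 g2 G) (N : ℕ) (hN : 1 ≤ N) :
    ∫ y : ℝ, ‖sc N g2 2 y‖ ≤ (Real.sqrt N)⁻¹ * (N : ℝ)⁻¹ * G := by
  have hN0 : (0 : ℝ) < N := by exact_mod_cast hN
  simp_rw [sc_norm]
  rw [integral_const_mul, Measure.integral_comp_div (fun y => |g2 y|), abs_of_pos hN0, smul_eq_mul]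
  have h1 : (Real.sqrt N)⁻¹ * ((N : ℝ) ^ 2)⁻¹ * ((N : ℝ) * ∫ y, |g2 y|) =
      (Real.sqrt N)⁻¹ * (N : ℝ)⁻¹ * ∫ y, |g2 y| := by field_simp
  rw [h1]
  exact mul_le_mul_of_nonneg_left h.hG (by positivity)

lemma sc_int0 (h : Bump δ g g1 g2 G) (N : ℕ) (hN : 1 ≤ N) :
    ∫ y : ℝ, ‖sc N g 0 y‖ ^ 2 ≤ 1 := by
  have hN0 : (0 : ℝ) < N := by exact_mod_cast hN
  have h0 : ∀ y : ℝ, ‖sc N g 0 y‖ ^ 2 = (N : ℝ)⁻¹ * (g (y / N)) ^ 2 := by
    intro y
    rw [sc_norm, pow_zero, inv_one, mul_one, mul_pow, inv_pow, Real.sq_sqrt hN0.le, sq_abs]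
  simp_rw [h0]
  rw [integral_const_mul, Measure.integral_comp_div (fun y => (g y) ^ 2), abs_of_pos hN0,
    smul_eq_mul, ← mul_assoc, inv_mul_cancel₀ hN0.ne', one_mul]
  have h1 : ∀ y, (g y) ^ 2 ≤ (Set.Icc (0 : ℝ) 1).indicator (fun _ => (1 : ℝ)) y := by
    intro y
    by_cases hy : y ∈ Set.Icc (0 : ℝ) 1
    · rw [Set.indicator_of_mem hy]
      exact pow_le_one₀ (h.nn y) (h.le y)
    · rw [Set.indicator_of_notMem hy]
      rw [Set.mem_Icc, not_and_or, not_le, not_le] at hy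
      rw [h.zero y (hy.imp le_of_lt le_of_lt)]
      norm_num
  have h2 : Integrable ((Set.Icc (0 : ℝ) 1).indicator (fun _ => (1 : ℝ))) := by
    rw [integrable_indicator_iff measurableSet_Icc]
    exact integrableOn_const (by simp)
  calc ∫ y, (g y) ^ 2 ≤ ∫ y, (Set.Icc (0 : ℝ) 1).indicator (fun _ => (1 : ℝ)) y :=
        integral_mono_of_nonneg (Filter.Eventually.of_forall fun y => sq_nonneg _) h2
          (Filter.Eventually.of_forall h1)
    _ = 1 := by
        rw [integral_indicator measurableSet_Icc]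
        simp

/-- the coefficients -/
noncomputable def bb (N : ℕ) (n : ℕ) : ℂ :=
  if n ∈ Finset.Icc 1 N then (((Real.sqrt N)⁻¹ : ℝ) : ℂ) else 0

/-- lower bound for the gain -/
lemma gain_lower (h : Bump δ g g1 g2 G) (hδ : 0 < δ) (hδ1 : δ < 1 / 8) (N R : ℕ) (w : ℝ)
    (hw : 0 < w) (hN : 1 ≤ N) :
    2 * (Chebyshev.psi ((1 - 2 * δ) * N) - Chebyshev.psi (2 * δ * N)) / N - 1
      - 4 * (R * Real.log N) / N - 2 * (G / (N * w)) * (Chebyshev.psi N / N)
    ≤ gain N R w (fun n => (vonMangoldt n : ℂ) * bb N n) (sc N g 0) (sc N g2 2) := by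
  have hN0 : (0 : ℝ) < N := by exact_mod_cast hN
  have hsq : (Real.sqrt N)⁻¹ * (Real.sqrt N)⁻¹ = (N : ℝ)⁻¹ := by
    rw [← mul_inv, Real.mul_self_sqrt hN0.le]
  unfold gain
  have t1 : (∑ n ∈ (Finset.Icc 1 N).filter (fun n => R < n.minFac),
      (vonMangoldt n : ℂ) * bb N n * (starRingEnd ℂ) (sc N g 0 n)).re =
      (N : ℝ)⁻¹ * ∑ n ∈ (Finset.Icc 1 N).filter (fun n => R < n.minFac),
        vonMangoldt n * g (n / N) := by
    rw [Complex.re_sum, Finset.mul_sum]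
    apply Finset.sum_congr rfl
    intro n hn
    unfold bb sc
    rw [if_pos (Finset.mem_filter.mp hn).1, Complex.conj_ofReal, ← Complex.ofReal_mul,
      ← Complex.ofReal_mul, Complex.ofReal_re, pow_zero, ← hsq]
    ring
  have t3 : ∑ n ∈ (Finset.Icc 1 N).filter (fun n => n.minFac ≤ R),
      ‖(vonMangoldt n : ℂ) * bb N n‖ * ‖sc N g 0 n‖ =
      (N : ℝ)⁻¹ * ∑ n ∈ (Finset.Icc 1 N).filter (fun n => n.minFac ≤ R),
        vonMangoldt n * g (n / N) := by
    rw [Finset.mul_sum]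
    apply Finset.sum_congr rfl
    intro n hn
    unfold bb
    rw [if_pos (Finset.mem_filter.mp hn).1, ← Complex.ofReal_mul, Complex.norm_real,
      Real.norm_of_nonneg (mul_nonneg ArithmeticFunction.vonMangoldt_nonneg (by positivity)),
      sc_norm, abs_of_nonneg (h.nn _), pow_zero, ← hsq]
    ring
  have t4 : ∑ n ∈ Finset.Icc 1 N, ‖(vonMangoldt n : ℂ) * bb N n‖ =
      (Real.sqrt N)⁻¹ * Chebyshev.psi N := by
    rw [psi_eq, Finset.mul_sum]
    apply Finset.sum_congr rfl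
    intro n hn
    unfold bb
    rw [if_pos hn, ← Complex.ofReal_mul, Complex.norm_real,
      Real.norm_of_nonneg (mul_nonneg ArithmeticFunction.vonMangoldt_nonneg (by positivity))]
    ring
  rw [t1, t3, t4]
  have hle : ∀ s : Finset ℕ, ∑ n ∈ s, vonMangoldt n * g (n / N) ≤ ∑ n ∈ s, vonMangoldt n := by
    intro s
    apply Finset.sum_le_sum
    intro n _
    have := mul_le_mul_of_nonneg_left (h.le ((n : ℝ) / N))
      (ArithmeticFunction.vonMangoldt_nonneg (n := n))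
    simpa using this
  have u1 : ∑ n ∈ (Finset.Icc 1 N).filter (fun n => n.minFac ≤ R), vonMangoldt n * g (n / N) ≤
      R * Real.log N := (hle _).trans (sum_small R N hN)
  have u2 : ∑ n ∈ (Finset.Icc 1 N).filter (fun n => R < n.minFac), vonMangoldt n * g (n / N) =
      ∑ n ∈ Finset.Icc 1 N, vonMangoldt n * g (n / N) -
      ∑ n ∈ (Finset.Icc 1 N).filter (fun n => n.minFac ≤ R), vonMangoldt n * g (n / N) := by
    have := Finset.sum_filter_add_sum_filter_not (Finset.Icc 1 N) (fun n => R < n.minFac)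
      (fun n : ℕ => vonMangoldt n * g (n / N))
    simp only [not_lt] at this
    linarith
  have u3 : Chebyshev.psi ((1 - 2 * δ) * N) - Chebyshev.psi (2 * δ * N) ≤
      ∑ n ∈ Finset.Icc 1 N, vonMangoldt n * g (n / N) := by
    have v1 : Chebyshev.psi ((1 - 2 * δ) * N) - Chebyshev.psi (2 * δ * N) =
        ∑ n ∈ Finset.Ioc ⌊2 * δ * (N : ℝ)⌋₊ ⌊(1 - 2 * δ) * (N : ℝ)⌋₊, vonMangoldt n := by
      unfold Chebyshev.psi
      have hfl : ⌊2 * δ * (N : ℝ)⌋₊ ≤ ⌊(1 - 2 * δ) * (N : ℝ)⌋₊ := by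
        apply Nat.floor_le_floor
        nlinarith
      rw [sub_eq_iff_eq_add, ← Finset.sum_union]
      · congr 1
        ext n
        simp only [Finset.mem_union, Finset.mem_Ioc]
        omega
      · rw [Finset.disjoint_left]
        intro n hn hn'
        rw [Finset.mem_Ioc] at hn hn'
        omega
    rw [v1]
    calc _ = ∑ n ∈ Finset.Ioc ⌊2 * δ * (N : ℝ)⌋₊ ⌊(1 - 2 * δ) * (N : ℝ)⌋₊,
          vonMangoldt n * g (n / N) := by
          apply Finset.sum_congr rfl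
          intro n hn
          rw [Finset.mem_Ioc] at hn
          have w1 : 2 * δ * (N : ℝ) < n := Nat.lt_of_floor_lt hn.1
          have w2 : (n : ℝ) ≤ (1 - 2 * δ) * N := (Nat.le_floor_iff (by
            apply mul_nonneg (by linarith) hN0.le)).mp hn.2
          rw [h.one, mul_one]
          · rw [le_div_iff₀ hN0]; exact w1.le
          · rw [div_le_iff₀ hN0]; exact w2
      _ ≤ _ := by
          apply Finset.sum_le_sum_of_subset_of_nonneg
          · intro n hn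
            rw [Finset.mem_Ioc] at hn
            have w2 : (n : ℝ) ≤ (1 - 2 * δ) * N := (Nat.le_floor_iff (by
              apply mul_nonneg (by linarith) hN0.le)).mp hn.2
            rw [Finset.mem_Icc]
            refine ⟨by omega, ?_⟩
            have : (n : ℝ) ≤ N := by nlinarith
            exact_mod_cast this
          · intro n _ _
            exact mul_nonneg ArithmeticFunction.vonMangoldt_nonneg (h.nn _)
  have u4 := sc_int0 h N hN
  have u5 : 2 * ((∫ y : ℝ, ‖sc N g2 2 y‖) / w) * ((Real.sqrt N)⁻¹ * Chebyshev.psi N) ≤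
      2 * (G / (N * w)) * (Chebyshev.psi N / N) := by
    have w1 := sc_int2 h N hN
    have hpsi : 0 ≤ Chebyshev.psi N := Chebyshev.psi_nonneg _
    calc 2 * ((∫ y : ℝ, ‖sc N g2 2 y‖) / w) * ((Real.sqrt N)⁻¹ * Chebyshev.psi N)
        ≤ 2 * (((Real.sqrt N)⁻¹ * (N : ℝ)⁻¹ * G) / w) * ((Real.sqrt N)⁻¹ * Chebyshev.psi N) := by
          gcongr
      _ = 2 * (G / (N * w)) * (((Real.sqrt N)⁻¹ * (Real.sqrt N)⁻¹) * Chebyshev.psi N) := by
          field_simp
      _ = 2 * (G / (N * w)) * (Chebyshev.psi N / N) := by rw [hsq]; ring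
  rw [u2]
  have e1 : 2 * (Chebyshev.psi ((1 - 2 * δ) * N) - Chebyshev.psi (2 * δ * N)) / N =
      2 * ((N : ℝ)⁻¹ * (Chebyshev.psi ((1 - 2 * δ) * N) - Chebyshev.psi (2 * δ * N))) := by
    field_simp
  have e2 : 4 * (R * Real.log N) / N = 4 * ((N : ℝ)⁻¹ * (R * Real.log N)) := by field_simp
  rw [e1, e2]
  have hNi : (0 : ℝ) ≤ (N : ℝ)⁻¹ := by positivity
  have e3 := mul_le_mul_of_nonneg_left u1 hNi
  have e4 := mul_le_mul_of_nonneg_left u3 hNi
  rw [mul_sub]
  linarith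

end BV

end H385
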