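import Pool.Agent.H385R7.BV2

open Complex Filter Topology Set MeasureTheory

namespace H385

namespace BV

open ArithmeticFunction (vonMangoldt)

/-- lower bound for the gain, asymptotic form -/
lemma gain_asymp (ε : ℝ) (hε : 0 < ε) (C : ℝ) (hC : 0 < C) : ∃ (g g1 g2 : ℝ → ℝ) (G ρ M : ℝ),
    Bump (min (ε / 32) (1 / 16)) g g1 g2 G ∧ 0 < ρ ∧ ρ ≤ 1 ∧ 1 ≤ M ∧
    ∀ (N R : ℕ) (Y : ℝ), M ≤ N → M ≤ Y → (R : ℝ) * Y ≤ N → Real.log N ≤ 4 * Real.log Y →
      1 - ε ≤ gain N R (1 / (C * ρ * N)) (fun n => (vonMangoldt n : ℂ) * bb N n)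
        (sc N g 0) (sc N g2 2) := by
  set δ : ℝ := min (ε / 32) (1 / 16) with hδdef
  have hδ : 0 < δ := by rw [hδdef]; positivity
  have hδ1 : δ < 1 / 8 := lt_of_le_of_lt (min_le_right _ _) (by norm_num)
  have hδε : δ ≤ ε / 32 := min_le_left _ _
  obtain ⟨g, g1, g2, G, hB⟩ := bump_exists δ hδ hδ1
  have hG := hB.G0
  obtain ⟨x0, hx0, hpsi⟩ := psi_bounds (min (ε / 32) 1) (by positivity)
  set e1 : ℝ := min (ε / 32) 1 with he1
  have he10 : 0 < e1 := by rw [he1]; positivity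
  have he11 : e1 ≤ 1 := min_le_right _ _
  have he1ε : e1 ≤ ε / 32 := min_le_left _ _
  -- 2 G C ρ ψ/N ≤ ε/4
  set ρ : ℝ := min 1 (ε / (16 * C * (G + 1))) with hρ
  have hρ0 : 0 < ρ := by rw [hρ]; positivity
  have hρ1 : ρ ≤ 1 := min_le_left _ _
  have hρ2 : ρ ≤ ε / (16 * C * (G + 1)) := min_le_right _ _
  -- 16 log Y / Y ≤ ε / 4
  have hlog : ∀ᶠ y : ℝ in atTop, 16 * Real.log y / y ≤ ε / 4 := by
    have h1 : Tendsto (fun y : ℝ => 16 * Real.log y / y) atTop (𝓝 0) := by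
      have h2 := Real.tendsto_pow_log_div_mul_add_atTop 1 0 1 one_ne_zero
      simp only [pow_one, one_mul, add_zero] at h2
      have h3 := h2.const_mul 16
      rw [mul_zero] at h3
      refine h3.congr fun y => ?_
      ring
    exact h1.eventually_le_const (by positivity)
  obtain ⟨y0, hy0⟩ := Filter.eventually_atTop.mp hlog
  refine ⟨g, g1, g2, G, ρ, max (max y0 1) (x0 / δ + x0), hB, hρ0, hρ1, ?_, ?_⟩
  · exact (le_max_right _ _).trans (le_max_left _ _)
  intro N R Y hN hY hRY hlogN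
  have hN1 : (1 : ℝ) ≤ N := ((le_max_right _ _).trans (le_max_left _ _)).trans hN
  have hN0 : (0 : ℝ) < N := by linarith
  have hNn : 1 ≤ N := by exact_mod_cast hN1
  have hY1 : (1 : ℝ) ≤ Y := ((le_max_right _ _).trans (le_max_left _ _)).trans hY
  have hY0 : (0 : ℝ) < Y := by linarith
  have hYy : y0 ≤ Y := ((le_max_left _ _).trans (le_max_left _ _)).trans hY
  have hNx : x0 / δ + x0 ≤ N := (le_max_right _ _).trans hN
  have hw : 0 < 1 / (C * ρ * N) := by positivity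
  refine le_trans ?_ (gain_lower hB hδ hδ1 N R _ hw hNn)
  have hxδ : 0 < x0 / δ := by positivity
  have p1 := (hpsi ((1 - 2 * δ) * N) (by
    have : x0 ≤ (1 - 2 * δ) * (x0 / δ + x0) := by
      have h1 : (1 - 2 * δ) * (x0 / δ + x0) = x0 / δ - x0 - 2 * δ * x0 := by field_simp; ring
      have h2 : 8 * x0 ≤ x0 / δ := by rw [le_div_iff₀ hδ]; nlinarith
      rw [h1]; nlinarith
    exact this.trans (mul_le_mul_of_nonneg_left hNx (by linarith)))).1
  have p2 := (hpsi (2 * δ * N) (by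
    have : x0 ≤ 2 * δ * (x0 / δ + x0) := by
      have h1 : 2 * δ * (x0 / δ + x0) = 2 * x0 + 2 * δ * x0 := by field_simp
      rw [h1]; nlinarith
    exact this.trans (mul_le_mul_of_nonneg_left hNx (by positivity)))).2
  have p3 := (hpsi (N : ℝ) (by linarith)).2
  -- main
  have q1 : 2 * (1 - 4 * δ - e1) - 1 ≤
      2 * (Chebyshev.psi ((1 - 2 * δ) * N) - Chebyshev.psi (2 * δ * N)) / N - 1 := by
    have : 2 * (1 - 4 * δ - e1) ≤
        2 * (Chebyshev.psi ((1 - 2 * δ) * N) - Chebyshev.psi (2 * δ * N)) / N := by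
      rw [le_div_iff₀ hN0]
      have h1 : (1 - e1) * ((1 - 2 * δ) * N) - (1 + e1) * (2 * δ * N) =
          (1 - 4 * δ - e1) * N := by ring
      nlinarith
    linarith
  have q2 : 4 * (R * Real.log N) / N ≤ ε / 4 := by
    have h1 : (R : ℝ) ≤ N / Y := by rw [le_div_iff₀ hY0]; exact hRY
    have hlN : 0 ≤ Real.log N := Real.log_nonneg hN1
    calc 4 * (R * Real.log N) / N ≤ 4 * ((N / Y) * (4 * Real.log Y)) / N := by gcongr
      _ = 16 * Real.log Y / Y := by field_simp; ring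
      _ ≤ ε / 4 := hy0 Y hYy
  have q3 : 2 * (G / (N * (1 / (C * ρ * N)))) * (Chebyshev.psi N / N) ≤ ε / 4 := by
    have h1 : G / (N * (1 / (C * ρ * N))) = G * C * ρ := by field_simp
    have h2 : Chebyshev.psi N / N ≤ 2 := by
      rw [div_le_iff₀ hN0]; nlinarith
    have h3 : G * C * ρ ≤ ε / 16 := by
      calc G * C * ρ ≤ G * C * (ε / (16 * C * (G + 1))) := by gcongr
        _ = (G / (G + 1)) * (ε / 16) := by field_simp
        _ ≤ 1 * (ε / 16) := by
            gcongr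
            rw [div_le_one (by positivity)]; linarith
        _ = ε / 16 := one_mul _
    have h4 : 0 ≤ Chebyshev.psi N / N := div_nonneg (Chebyshev.psi_nonneg _) hN0.le
    rw [h1]
    have h5 : 0 ≤ G * C * ρ := by positivity
    calc 2 * (G * C * ρ) * (Chebyshev.psi N / N) ≤ 2 * (ε / 16) * 2 := by gcongr
      _ = ε / 4 := by ring
  nlinarith

end BV

end H385
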