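import Pool.Agent.H385R7.BV3

open Complex Filter Topology Set MeasureTheory

namespace H385

namespace BV

open ArithmeticFunction (vonMangoldt)

/-- `ψ(N, χ)` -/
noncomputable def psiC (N : ℕ) {q : ℕ} (χ : DirichletCharacter ℂ q) : ℂ :=
  ∑ n ∈ Finset.Icc 1 N, χ (n : ZMod q) * (vonMangoldt n : ℂ)

lemma primFam_const_mul (X Y : ℕ) (c : ℝ) (f : (q : ℕ) → DirichletCharacter ℂ q → ℝ) :
    primFam X Y (fun q χ => c * f q χ) = c * primFam X Y f := by
  unfold primFam
  rw [Finset.mul_sum]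
  apply Finset.sum_congr rfl
  intro q _
  have h := smul_finsum c (fun χ : {χ : DirichletCharacter ℂ q // χ.IsPrimitive} => f q χ)
  simp only [smul_eq_mul] at h
  rw [← h]
  ring

lemma tsum_bb (N q : ℕ) (χ : DirichletCharacter ℂ q) :
    ∑' n : ℕ, χ (n : ZMod q) * (vonMangoldt n : ℂ) * bb N n =
      (((Real.sqrt N)⁻¹ : ℝ) : ℂ) * psiC N χ := by
  rw [tsum_eq_sum (s := Finset.Icc 1 N)]
  · unfold psiC
    rw [Finset.mul_sum]
    apply Finset.sum_congr rfl
    intro n hn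
    unfold bb
    rw [if_pos hn]
    ring
  · intro n hn
    unfold bb
    rw [if_neg hn, mul_zero]

lemma norm_bb (N n : ℕ) : ‖bb N n‖ = if n ∈ Finset.Icc 1 N then (Real.sqrt N)⁻¹ else 0 := by
  unfold bb
  split_ifs with h
  · rw [Complex.norm_real, Real.norm_of_nonneg (by positivity)]
  · simp

lemma summable_bb (N : ℕ) : Summable (fun n => vonMangoldt n * ‖bb N n‖) := by
  apply summable_of_ne_finset_zero (s := Finset.Icc 1 N)
  intro n hn
  rw [norm_bb, if_neg hn, mul_zero]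

lemma tsum_ncop (N q : ℕ) (hN : 1 ≤ N) (hq : 1 ≤ q) :
    ∑' n : ℕ, (if Nat.Coprime n q then 0 else vonMangoldt n * ‖bb N n‖) ≤
      (Real.sqrt N)⁻¹ * (q.primeFactors.card * Real.log N) := by
  rw [tsum_eq_sum (s := (Finset.Icc 1 N).filter (fun n => ¬ n.Coprime q))]
  · calc _ = ∑ n ∈ (Finset.Icc 1 N).filter (fun n => ¬ n.Coprime q),
          (Real.sqrt N)⁻¹ * vonMangoldt n := by
          apply Finset.sum_congr rfl
          intro n hn
          rw [Finset.mem_filter] at hn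
          rw [if_neg hn.2, norm_bb, if_pos hn.1, mul_comm]
      _ = (Real.sqrt N)⁻¹ * ∑ n ∈ (Finset.Icc 1 N).filter (fun n => ¬ n.Coprime q),
          vonMangoldt n := by rw [Finset.mul_sum]
      _ ≤ _ := mul_le_mul_of_nonneg_left (sum_ncop q N hq hN) (by positivity)
  · intro n hn
    rw [Finset.mem_filter, not_and_or, not_not] at hn
    rcases hn with hn | hn
    · rw [norm_bb, if_neg hn, mul_zero, ite_self]
    · rw [if_pos hn]

lemma tsum_ncop_nn (N q : ℕ) :
    0 ≤ ∑' n : ℕ, (if Nat.Coprime n q then 0 else vonMangoldt n * ‖bb N n‖) := by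
  apply tsum_nonneg
  intro n
  split_ifs
  · exact le_rfl
  · exact mul_nonneg ArithmeticFunction.vonMangoldt_nonneg (norm_nonneg _)

lemma tsum_tail (N : ℕ) :
    ∑' n : ℕ, (if N < n then vonMangoldt n * ‖bb N n‖ else 0) = 0 := by
  have : ∀ n : ℕ, (if N < n then vonMangoldt n * ‖bb N n‖ else 0) = 0 := by
    intro n
    split_ifs with h
    · rw [norm_bb, if_neg, mul_zero]
      rw [Finset.mem_Icc]; omega
    · rfl
  simp [this]

lemma sum_sq_bb (N : ℕ) (hN : 1 ≤ N) :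
    ∑ n ∈ Finset.Icc 1 N, (vonMangoldt n) ^ 2 * ‖bb N n‖ ^ 2 ≤
      Real.log N * (Chebyshev.psi N / N) := by
  have hN0 : (0 : ℝ) < N := by exact_mod_cast hN
  calc _ = (N : ℝ)⁻¹ * ∑ n ∈ Finset.Icc 1 N, (vonMangoldt n) ^ 2 := by
        rw [Finset.mul_sum]
        apply Finset.sum_congr rfl
        intro n hn
        rw [norm_bb, if_pos hn, inv_pow, Real.sq_sqrt hN0.le, mul_comm]
    _ ≤ (N : ℝ)⁻¹ * (Real.log N * Chebyshev.psi N) :=
        mul_le_mul_of_nonneg_left (lam_sq_le N) (by positivity)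
    _ = _ := by field_simp

lemma harm (X Z : ℕ) : ∑ q ∈ Finset.Ioc X Z, 1 / (q : ℝ) ≤ 1 + Real.log Z := by
  have h1 := harmonic_le_one_add_log Z
  have h2 : ((harmonic Z : ℚ) : ℝ) = ∑ q ∈ Finset.Icc 1 Z, 1 / (q : ℝ) := by
    rw [harmonic_eq_sum_Icc]
    push_cast
    apply Finset.sum_congr rfl
    intro q _
    rw [one_div]
  rw [h2] at h1
  refine le_trans ?_ h1
  apply Finset.sum_le_sum_of_subset_of_nonneg
  · intro q hq
    rw [Finset.mem_Ioc] at hq
    rw [Finset.mem_Icc]; omega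
  · intro q _ _
    positivity

/-- numerical part -/
lemma numer (a c2 C F lam L Br E1 E2 : ℝ) (ha : 0 < a) (ha1 : a ≤ 1 / 64) (hc2 : 0 < c2)
    (hC : 0 < C) (hlam : 1 ≤ lam) (hL : 1 ≤ L) (hlam2 : C ≤ a * c2 * lam)
    (hL2 : 2 * C ≤ a * c2 * L)
    (hBr : Br ≤ (1 + 17 * a) * L) (hE1 : E1 ≤ 1) (hE2 : E2 ≤ 1)
    (hF : F ≤ (1 + a) * (c2 * (1 + a) * lam + C) * Br + C * E1 + C * (lam + 1) * E2) :
    F ≤ (1 + 64 * a) * (L * (c2 * lam)) := by
  have h1 : (1 + a) * (c2 * (1 + a) * lam + C) ≤ (1 + 5 * a) * (c2 * lam) := by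
    have hcl : 0 < c2 * lam := by positivity
    have : c2 * (1 + a) * lam + C ≤ (1 + 2 * a) * (c2 * lam) := by nlinarith
    calc (1 + a) * (c2 * (1 + a) * lam + C) ≤ (1 + a) * ((1 + 2 * a) * (c2 * lam)) :=
          mul_le_mul_of_nonneg_left this (by linarith)
      _ = ((1 + a) * (1 + 2 * a)) * (c2 * lam) := by ring
      _ ≤ (1 + 5 * a) * (c2 * lam) := by
          apply mul_le_mul_of_nonneg_right _ hcl.le
          nlinarith
  have hpre : 0 ≤ (1 + a) * (c2 * (1 + a) * lam + C) := by positivity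
  have h2 : (1 + a) * (c2 * (1 + a) * lam + C) * Br ≤
      ((1 + 5 * a) * (c2 * lam)) * ((1 + 17 * a) * L) := by
    calc _ ≤ (1 + a) * (c2 * (1 + a) * lam + C) * ((1 + 17 * a) * L) :=
          mul_le_mul_of_nonneg_left hBr hpre
      _ ≤ _ := mul_le_mul_of_nonneg_right h1 (by positivity)
  have hcl : 0 < L * (c2 * lam) := by positivity
  have h3 : ((1 + 5 * a) * (c2 * lam)) * ((1 + 17 * a) * L) ≤ (1 + 24 * a) * (L * (c2 * lam)) := by
    have : (1 + 5 * a) * (1 + 17 * a) ≤ 1 + 24 * a := by nlinarith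
    calc _ = ((1 + 5 * a) * (1 + 17 * a)) * (L * (c2 * lam)) := by ring
      _ ≤ _ := mul_le_mul_of_nonneg_right this hcl.le
  have h4 : C * E1 ≤ a * (L * (c2 * lam)) := by
    calc C * E1 ≤ C * 1 := mul_le_mul_of_nonneg_left hE1 hC.le
      _ ≤ a * c2 * lam := by linarith
      _ = a * c2 * lam * 1 := by ring
      _ ≤ a * c2 * lam * L := mul_le_mul_of_nonneg_left hL (by positivity)
      _ = _ := by ring
  have h5 : C * (lam + 1) * E2 ≤ a * (L * (c2 * lam)) := by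
    calc C * (lam + 1) * E2 ≤ C * (lam + 1) * 1 :=
          mul_le_mul_of_nonneg_left hE2 (by positivity)
      _ ≤ (2 * C) * lam := by nlinarith
      _ ≤ (a * c2 * L) * lam := mul_le_mul_of_nonneg_right hL2 (by linarith)
      _ = _ := by ring
  have h6 : 0 ≤ a * (L * (c2 * lam)) := by positivity
  calc F ≤ _ := hF
    _ ≤ (1 + 24 * a) * (L * (c2 * lam)) + a * (L * (c2 * lam)) + a * (L * (c2 * lam)) := by
        linarith
    _ = (1 + 26 * a) * (L * (c2 * lam)) := by ring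
    _ ≤ _ := by nlinarith

/-- the bracket -/
lemma brac (a L lN lR ex Ps G r : ℝ) (ha : 0 < a) (ha1 : a ≤ 1 / 64) (hL : 0 ≤ L)
    (hlN : 0 ≤ lN) (hlN2 : lN ≤ 2 * L) (hex0 : 0 ≤ ex) (hex : ex ≤ 1 + a) (hPs0 : 0 ≤ Ps)
    (hPs : Ps ≤ 1 + a)
    (hG : 1 - a ≤ G) (hlR0 : 0 ≤ lR) (hlR : lN - L - r ≤ lR) (hr : r ≤ a * L) (S : ℝ)
    (hS : S ≤ lN * Ps) :
    (1 + a) * ex * S - lR * G ≤ (1 + 17 * a) * L := by
  have h1 : (1 + a) * ex * S ≤ (1 + 4 * a) * lN := by
    calc (1 + a) * ex * S ≤ (1 + a) * ex * (lN * Ps) :=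
          mul_le_mul_of_nonneg_left hS (by positivity)
      _ ≤ (1 + a) * (1 + a) * (lN * (1 + a)) := by gcongr
      _ = ((1 + a) * (1 + a) * (1 + a)) * lN := by ring
      _ ≤ (1 + 4 * a) * lN := by
          apply mul_le_mul_of_nonneg_right _ hlN
          have e1 : a * a ≤ a * (1 / 64) := mul_le_mul_of_nonneg_left ha1 ha.le
          have e2 : a * a * a ≤ a * a * (1 / 64) := mul_le_mul_of_nonneg_left ha1 (by positivity)
          have e3 : (1 + a) * (1 + a) * (1 + a) = 1 + 3 * a + 3 * (a * a) + a * a * a := by ring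
          rw [e3]
          linarith
  have h2 : lR * (1 - a) ≤ lR * G := mul_le_mul_of_nonneg_left hG hlR0
  have h3 : (lN - L - r) * (1 - a) ≤ lR * (1 - a) := mul_le_mul_of_nonneg_right hlR (by linarith)
  have h4 : (1 + 4 * a) * lN - (lN - L - r) * (1 - a) = 5 * a * lN + (1 - a) * (L + r) := by ring
  have h5 : 5 * a * lN ≤ 10 * a * L := by nlinarith
  have h6 : (1 - a) * (L + r) ≤ (1 - a) * (L + a * L) :=
    mul_le_mul_of_nonneg_left (by linarith) (by linarith)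
  have h7 : (1 - a) * (L + a * L) ≤ L := by
    have e1 : (1 - a) * (L + a * L) = L - a * a * L := by ring
    have e2 : 0 ≤ a * a * L := by positivity
    linarith
  have h8 : 0 ≤ a * L := by positivity
  linarith

end BV

end H385
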