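import Pool.Agent.H385R7.BV4

open Complex Filter Topology Set MeasureTheory

namespace H385

namespace BV

open ArithmeticFunction (vonMangoldt)

lemma log_lim (η : ℝ) (hη : 0 < η) : ∃ x0 : ℝ, 1 ≤ x0 ∧ ∀ x : ℝ, x0 ≤ x →
    (1 + Real.log x) * (4 * Real.log x ^ 4) / x ≤ 1 / 2 ∧ Real.log x ^ 2 / x ≤ η := by
  have h1 : Tendsto (fun x : ℝ => (1 + Real.log x) * (4 * Real.log x ^ 4) / x) atTop (𝓝 0) := by
    have a5 := Real.tendsto_pow_log_div_mul_add_atTop 1 0 5 one_ne_zero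
    have a4 := Real.tendsto_pow_log_div_mul_add_atTop 1 0 4 one_ne_zero
    simp only [one_mul, add_zero] at a5 a4
    have h := (a4.const_mul 4).add (a5.const_mul 4)
    simp only [mul_zero, add_zero] at h
    refine h.congr fun x => ?_
    ring
  have h2 : Tendsto (fun x : ℝ => Real.log x ^ 2 / x) atTop (𝓝 0) := by
    have a2 := Real.tendsto_pow_log_div_mul_add_atTop 1 0 2 one_ne_zero
    simpa using a2
  have h3 := (h1.eventually_le_const (by norm_num : (0 : ℝ) < 1 / 2)).and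
    (h2.eventually_le_const hη)
  obtain ⟨b, hb⟩ := Filter.eventually_atTop.mp h3
  exact ⟨max b 1, le_max_right _ _, fun x hx => hb x ((le_max_left _ _).trans hx)⟩

lemma block (ε : ℝ) (hε : 0 < ε) (hε1 : ε ≤ 1) : ∃ K : ℝ, 1 ≤ K ∧ ∀ X Y N : ℕ,
    K ≤ X → K * X ≤ Y → K * Y ≤ N → (N : ℝ) ≤ (X : ℝ) ^ (2 - ε) →
    primFam X Y (fun _ χ => ‖psiC N χ‖ ^ 2) ≤
      (1 + ε) * (N * (Real.log Y * (c0 ^ 2 * Real.log ((Y : ℝ) / X)))) := by
  have hc0 : 0 < c0 := by unfold c0; positivity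
  have hc2 : 0 < c0 ^ 2 := by positivity
  set a : ℝ := ε / 64 with ha
  have ha0 : 0 < a := by positivity
  have ha1 : a ≤ 1 / 64 := by rw [ha]; linarith
  obtain ⟨C, P, hC, hP, hmain⟩ := prim_ls2 a ha0 (by linarith)
  obtain ⟨g, g1, g2, G, ρ, M, hB, hρ0, hρ1, hM1, hgain⟩ := gain_asymp a ha0 C hC
  obtain ⟨x0, hx0, hpsi⟩ := psi_bounds a ha0
  obtain ⟨x1, hx1, hlim⟩ := log_lim (1 / (P : ℝ) ^ 2) (by
    have : (1 : ℝ) ≤ P := by exact_mod_cast hP
    positivity)
  -- X^ε large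
  have hXε := (tendsto_rpow_atTop hε).eventually_ge_atTop (C + C ^ 2 + 7 / a)
  obtain ⟨x2, hx2⟩ := Filter.eventually_atTop.mp hXε
  set K2 : ℝ := Real.exp (C / (a * c0 ^ 2)) with hK2
  set K3 : ℝ := Real.exp (2 * C / (a * c0 ^ 2) + |Real.log (2 / ρ)| / a + 1) with hK3
  have hPR : (1 : ℝ) ≤ P := by exact_mod_cast hP
  set K : ℝ := 3 + P / ρ + 2 * P ^ 2 + M + x0 + x1 + |x2| + K2 + K3 with hK
  have hK2p : 0 < K2 := Real.exp_pos _
  have hK3p : 0 < K3 := Real.exp_pos _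
  have hPρ : 0 < P / ρ := by positivity
  have hP2 : (0 : ℝ) < 2 * P ^ 2 := by positivity
  have hx2a := abs_nonneg x2
  refine ⟨K, by linarith, ?_⟩
  intro X Y N hX hXY hYN hNX
  have hK1 : 1 ≤ K := by linarith
  have hX1 : (1 : ℝ) ≤ X := by linarith
  have hX0 : (0 : ℝ) < X := by linarith
  have hXn : 1 ≤ X := by exact_mod_cast hX1
  have hXYr : (X : ℝ) ≤ Y := by nlinarith
  have hXYn : X ≤ Y := by exact_mod_cast hXYr
  have hKY : K ≤ Y := by linarith
  have hY1 : (1 : ℝ) ≤ Y := by linarith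
  have hY0 : (0 : ℝ) < Y := by linarith
  have hYNr : (Y : ℝ) ≤ N := by nlinarith
  have hKN : K ≤ N := by linarith
  have hN1 : (1 : ℝ) ≤ N := by linarith
  have hN0 : (0 : ℝ) < N := by linarith
  have hNn : 1 ≤ N := by exact_mod_cast hN1
  -- powers
  have hpow := hx2 (X : ℝ) (by
    have := le_abs_self x2
    linarith)
  have hXX : (X : ℝ) ^ (2 - ε) * (X : ℝ) ^ ε = (X : ℝ) ^ 2 := by
    rw [← Real.rpow_add hX0, ← Real.rpow_natCast]
    congr 1
    push_cast
    ring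
  have hNV : (N : ℝ) * (X : ℝ) ^ ε ≤ (X : ℝ) ^ 2 := by
    rw [← hXX]
    exact mul_le_mul_of_nonneg_right hNX (by positivity)
  have hCε : C ≤ (X : ℝ) ^ ε := by
    have : 0 < 7 / a := by positivity
    nlinarith [sq_nonneg C]
  have hC2ε : C ^ 2 ≤ (X : ℝ) ^ ε := by
    have : 0 < 7 / a := by positivity
    nlinarith
  have haε : 7 / a ≤ (X : ℝ) ^ ε := by nlinarith [sq_nonneg C]
  -- the parameter R
  set R : ℕ := ⌊ρ * N / Y⌋₊ with hR
  have hRle : (R : ℝ) ≤ ρ * N / Y := Nat.floor_le (by positivity)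
  have hRY : (R : ℝ) * Y ≤ ρ * N := by rwa [le_div_iff₀ hY0] at hRle
  have hPY : P / ρ * Y ≤ N := by
    refine le_trans (mul_le_mul_of_nonneg_right ?_ hY0.le) hYN
    linarith
  have hPq : (P : ℝ) ≤ ρ * N / Y := by
    rw [le_div_iff₀ hY0]
    have := mul_le_mul_of_nonneg_left hPY hρ0.le
    calc (P : ℝ) * Y = ρ * (P / ρ * Y) := by field_simp
      _ ≤ ρ * N := this
  have hPR' : P ≤ R := Nat.le_floor hPq
  have hR1 : (1 : ℝ) ≤ R := by
    have : 1 ≤ R := hP.trans hPR'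
    exact_mod_cast this
  have hRlow : ρ * N / Y ≤ 2 * R := by
    have h1 := Nat.lt_floor_add_one (ρ * (N : ℝ) / Y)
    rw [← hR] at h1
    linarith
  -- logs
  set L : ℝ := Real.log Y with hL
  set lN : ℝ := Real.log N with hlN
  set lam : ℝ := Real.log ((Y : ℝ) / X) with hlam
  have hL3 : 2 * C / (a * c0 ^ 2) + |Real.log (2 / ρ)| / a + 1 ≤ L := by
    rw [hL, Real.le_log_iff_exp_le hY0]
    linarith
  have hCac : 0 < 2 * C / (a * c0 ^ 2) := by positivity
  have hrr : 0 ≤ |Real.log (2 / ρ)| / a := by positivity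
  have hL1 : 1 ≤ L := by linarith
  have hlN0 : 0 ≤ lN := Real.log_nonneg hN1
  have hlN2 : lN ≤ 2 * L := by
    have h1 : (N : ℝ) ≤ (Y : ℝ) ^ 2 := by
      calc (N : ℝ) ≤ (X : ℝ) ^ (2 - ε) := hNX
        _ ≤ (X : ℝ) ^ (2 : ℝ) := Real.rpow_le_rpow_of_exponent_le hX1 (by linarith)
        _ = (X : ℝ) ^ 2 := by norm_num
        _ ≤ (Y : ℝ) ^ 2 := by gcongr
    have h2 := Real.log_le_log hN0 h1
    rw [Real.log_pow] at h2
    exact_mod_cast h2
  have hKXY : K ≤ (Y : ℝ) / X := by rw [le_div_iff₀ hX0]; exact hXY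
  have hlam2 : C / (a * c0 ^ 2) ≤ lam := by
    rw [hlam, Real.le_log_iff_exp_le (by positivity)]
    linarith
  have hlam1 : 1 ≤ lam := by
    rw [hlam, Real.le_log_iff_exp_le (by positivity)]
    have := Real.exp_one_lt_d9
    linarith
  have hlR : lN - L - |Real.log (2 / ρ)| ≤ Real.log R := by
    have h1 : Real.log (ρ * N / Y) ≤ Real.log (2 * R) := Real.log_le_log (by positivity) hRlow
    rw [Real.log_mul two_ne_zero (by positivity), Real.log_div (by positivity) hY0.ne',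
      Real.log_mul hρ0.ne' hN0.ne'] at h1
    have h2 : Real.log (2 / ρ) = Real.log 2 - Real.log ρ := Real.log_div two_ne_zero hρ0.ne'
    have h3 := le_abs_self (Real.log (2 / ρ))
    rw [h2] at h3 ⊢
    linarith
  have hlR0 : 0 ≤ Real.log R := Real.log_nonneg hR1
  have hr : |Real.log (2 / ρ)| ≤ a * L := by
    have : |Real.log (2 / ρ)| / a ≤ L := by linarith
    rw [div_le_iff₀ ha0] at this
    linarith
  -- the width
  set w : ℝ := 1 / (C * ρ * N) with hw
  have hw0 : 0 < w := by rw [hw]; positivity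
  have hmul : (Real.sqrt N)⁻¹ * (Real.sqrt N)⁻¹ = (N : ℝ)⁻¹ := by
    rw [← mul_inv, Real.mul_self_sqrt hN0.le]
  have hF := hmain X Y N R ((X : ℝ) ^ 2) w (bb N) (sc N g 0) (sc N g1 1) (sc N g2 2) hXn hXYn hPR'
    (sc_C2I hB N hNn) (one_le_pow₀ hX1) le_rfl hw0 (by
      calc C * R * Y = C * (R * Y) := by ring
        _ ≤ C * (ρ * N) := mul_le_mul_of_nonneg_left hRY hC.le
        _ ≤ C * (1 * N) := by gcongr
        _ = N * C := by ring
        _ ≤ N * (X : ℝ) ^ ε := mul_le_mul_of_nonneg_left hCε hN0.le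
        _ ≤ (X : ℝ) ^ 2 := hNV) (by
      rw [hw]
      calc C * (1 / (C * ρ * N)) * R * Y = (R * Y) / (ρ * N) := by field_simp
        _ ≤ 1 := by rw [div_le_one (by positivity)]; exact hRY) (by
      rw [hw, mul_one_div, le_div_iff₀ (by positivity)]
      calc C * (C * ρ * N) = C ^ 2 * (ρ * N) := by ring
        _ ≤ C ^ 2 * (1 * N) := by gcongr
        _ = N * C ^ 2 := by ring
        _ ≤ N * (X : ℝ) ^ ε := mul_le_mul_of_nonneg_left hC2ε hN0.le
        _ ≤ (X : ℝ) ^ 2 := hNV) (summable_bb N)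
  have hfun : primFam X Y (fun q χ =>
      ‖∑' n : ℕ, χ (n : ZMod q) * (vonMangoldt n : ℂ) * bb N n‖ ^ 2) =
      (N : ℝ)⁻¹ * primFam X Y (fun _ χ => ‖psiC N χ‖ ^ 2) := by
    rw [← primFam_const_mul]
    congr 1
    funext q χ
    rw [tsum_bb, norm_mul, mul_pow, Complex.norm_real, Real.norm_of_nonneg (by positivity),
      inv_pow, Real.sq_sqrt hN0.le]
  rw [hfun] at hF
  -- the error terms
  have hPYN : ((P * Y : ℕ) : ℝ) ≤ N := by
    push_cast
    refine le_trans (mul_le_mul_of_nonneg_right ?_ hY0.le) hPY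
    rw [le_div_iff₀ hρ0]
    nlinarith
  obtain ⟨hlim1, hlim2⟩ := hlim N (by linarith)
  have hE1 : ∑ q ∈ Finset.Ioc X (P * Y), (1 / (q : ℝ)) *
        (∑' n : ℕ, if Nat.Coprime n q then 0 else vonMangoldt n * ‖bb N n‖) ^ 2 ≤ 1 := by
    have hterm : ∀ q ∈ Finset.Ioc X (P * Y), (1 / (q : ℝ)) *
        (∑' n : ℕ, if Nat.Coprime n q then 0 else vonMangoldt n * ‖bb N n‖) ^ 2 ≤
        (1 / (q : ℝ)) * ((4 * lN ^ 4) / N) := by
      intro q hq
      rw [Finset.mem_Ioc] at hq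
      apply mul_le_mul_of_nonneg_left _ (by positivity)
      have hq1 : 1 ≤ q := by omega
      have hqN : (q : ℝ) ≤ N := le_trans (by exact_mod_cast hq.2) hPYN
      have h1 := tsum_ncop N q hNn hq1
      have h2 := omega_le q hq1
      have h3 : Real.log q ≤ lN := Real.log_le_log (by exact_mod_cast hq1) hqN
      have h4 : (Real.sqrt N)⁻¹ * (q.primeFactors.card * Real.log N) ≤
          (Real.sqrt N)⁻¹ * (2 * lN * lN) := by
        gcongr
        linarith
      calc _ ≤ ((Real.sqrt N)⁻¹ * (2 * lN * lN)) ^ 2 :=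
            pow_le_pow_left₀ (tsum_ncop_nn N q) (h1.trans h4) 2
        _ = ((Real.sqrt N)⁻¹ * (Real.sqrt N)⁻¹) * (4 * lN ^ 4) := by ring
        _ = 4 * lN ^ 4 / N := by rw [hmul]; ring
    calc _ ≤ ∑ q ∈ Finset.Ioc X (P * Y), (1 / (q : ℝ)) * ((4 * lN ^ 4) / N) :=
          Finset.sum_le_sum hterm
      _ = (∑ q ∈ Finset.Ioc X (P * Y), (1 / (q : ℝ))) * ((4 * lN ^ 4) / N) := by
          rw [Finset.sum_mul]
      _ ≤ (1 + lN) * ((4 * lN ^ 4) / N) := by
          apply mul_le_mul_of_nonneg_right _ (by positivity)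
          refine (harm X (P * Y)).trans ?_
          have : Real.log ((P * Y : ℕ) : ℝ) ≤ lN := Real.log_le_log (by
            push_cast; positivity) hPYN
          linarith
      _ = (1 + lN) * (4 * lN ^ 4) / N := by ring
      _ ≤ 1 := by linarith
  have hE2 : (∑' n : ℕ, if Nat.Coprime n P then 0 else vonMangoldt n * ‖bb N n‖) ^ 2 +
         (∑' n : ℕ, if N < n then vonMangoldt n * ‖bb N n‖ else 0) ^ 2 ≤ 1 := by
    rw [tsum_tail]
    have h1 := tsum_ncop N P hNn hP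
    have hPc : (P.primeFactors.card : ℝ) ≤ P := by
      have h2 : P.primeFactors.card ≤ P := by
        calc P.primeFactors.card ≤ (Finset.Icc 1 P).card := by
              apply Finset.card_le_card
              intro p hp
              rw [Finset.mem_Icc]
              exact ⟨(Nat.prime_of_mem_primeFactors hp).one_le,
                Nat.le_of_dvd (by omega) (Nat.dvd_of_mem_primeFactors hp)⟩
          _ = P := by simp
      exact_mod_cast h2
    have h4 : (Real.sqrt N)⁻¹ * (P.primeFactors.card * Real.log N) ≤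
          (Real.sqrt N)⁻¹ * (P * lN) := by gcongr
    have h5 : (∑' n : ℕ, if Nat.Coprime n P then 0 else vonMangoldt n * ‖bb N n‖) ^ 2 ≤
        (P : ℝ) ^ 2 * (lN ^ 2 / N) := by
      calc _ ≤ ((Real.sqrt N)⁻¹ * (P * lN)) ^ 2 :=
            pow_le_pow_left₀ (tsum_ncop_nn N P) (h1.trans h4) 2
        _ = ((Real.sqrt N)⁻¹ * (Real.sqrt N)⁻¹) * (P ^ 2 * lN ^ 2) := by ring
        _ = (P : ℝ) ^ 2 * (lN ^ 2 / N) := by rw [hmul]; ring
    have h6 : (P : ℝ) ^ 2 * (lN ^ 2 / N) ≤ 1 := by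
      calc (P : ℝ) ^ 2 * (lN ^ 2 / N) ≤ (P : ℝ) ^ 2 * (1 / (P : ℝ) ^ 2) :=
            mul_le_mul_of_nonneg_left hlim2 (by positivity)
        _ = 1 := by field_simp
    simpa using h5.trans h6
  -- the bracket
  have hex : Real.exp (Real.pi * N / (X : ℝ) ^ 2) ≤ 1 + a := by
    have hX2 : (0 : ℝ) < (X : ℝ) ^ 2 := by positivity
    have h1 : Real.pi * N / (X : ℝ) ^ 2 ≤ a / 2 := by
      rw [div_le_iff₀ hX2]
      have h2 : 7 / a * N ≤ (X : ℝ) ^ 2 := by
        refine le_trans ?_ hNV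
        rw [mul_comm]
        exact mul_le_mul_of_nonneg_left haε hN0.le
      have h3 := mul_le_mul_of_nonneg_left h2 (by positivity : 0 ≤ a / 2)
      have h4 : a / 2 * (7 / a * N) = 3.5 * N := by field_simp; norm_num
      rw [h4] at h3
      have := Real.pi_lt_d2
      nlinarith
    calc Real.exp (Real.pi * N / (X : ℝ) ^ 2) ≤ Real.exp (a / 2) := Real.exp_le_exp.mpr h1
      _ ≤ 1 + a := by
          have h5 := Real.exp_bound' (x := a / 2) (by positivity) (by linarith) (n := 2) (by norm_num)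
          simp [Finset.sum_range_succ] at h5
          nlinarith
  have hg := hgain N R Y (by linarith) (by linarith)
    (hRY.trans (by nlinarith)) (by linarith)
  have hps := (hpsi (N : ℝ) (by linarith)).2
  have hBr := brac a L lN (Real.log R) (Real.exp (Real.pi * N / (X : ℝ) ^ 2)) (Chebyshev.psi N / N)
    (gain N R w (fun n => (vonMangoldt n : ℂ) * bb N n) (sc N g 0) (sc N g2 2))
    |Real.log (2 / ρ)| ha0 ha1 (by linarith) hlN0 hlN2 (Real.exp_pos _).le hex
    (div_nonneg (Chebyshev.psi_nonneg _) hN0.le) (by rw [div_le_iff₀ hN0]; exact hps) hg hlR0 hlR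
    hr _ (sum_sq_bb N hNn)
  have hfin := numer a (c0 ^ 2) C _ lam L _ _ _ ha0 ha1 hc2 hC hlam1 hL1 (by
      rw [div_le_iff₀ (by positivity)] at hlam2
      linarith) (by
      have : 2 * C / (a * c0 ^ 2) ≤ L := by linarith
      rw [div_le_iff₀ (by positivity)] at this
      linarith) hBr hE1 hE2 hF
  have h64 : 1 + 64 * a = 1 + ε := by rw [ha]; ring
  rw [h64, inv_mul_le_iff₀ hN0] at hfin
  calc _ ≤ _ := hfin
    _ = _ := by ring

end BV

end H385
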