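import Pool.Agent.H385R7.BV5

open Complex Filter Topology Set MeasureTheory

namespace H385

namespace BV

open ArithmeticFunction (vonMangoldt)

/-- the expected size -/
noncomputable def expd (X Y : ℕ) : ℝ :=
  ∑ q ∈ Finset.Ioc X Y, (1 / (q : ℝ) ^ 2) * ((phs q : ℝ) * Real.log q)

lemma primFam_split (X Z Y : ℕ) (h1 : X ≤ Z) (h2 : Z ≤ Y)
    (f : (q : ℕ) → DirichletCharacter ℂ q → ℝ) :
    primFam X Y f = primFam X Z f + primFam Z Y f := by
  unfold primFam
  exact (Finset.sum_Ioc_consecutive _ h1 h2).symm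

lemma expd_split (X Z Y : ℕ) (h1 : X ≤ Z) (h2 : Z ≤ Y) :
    expd X Y = expd X Z + expd Z Y := by
  unfold expd
  exact (Finset.sum_Ioc_consecutive _ h1 h2).symm

lemma short (ε : ℝ) (hε : 0 < ε) (hε1 : ε ≤ 1) : ∃ (K : ℕ) (K1 : ℝ), 2 ≤ K ∧ 1 ≤ K1 ∧
    ∀ X Y N : ℕ, K1 ≤ X → K * X ≤ Y → Y ≤ K * K * X → K * Y ≤ N →
    (N : ℝ) ≤ (X : ℝ) ^ (2 - ε) →
    primFam X Y (fun _ χ => ‖psiC N χ‖ ^ 2) ≤ (1 + ε) * (N * expd X Y) := by
  have hc0 : 0 < c0 := by unfold c0; positivity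
  have hc2 : 0 < c0 ^ 2 := by positivity
  set e : ℝ := ε / 8 with he
  have he0 : 0 < e := by positivity
  have he1 : e ≤ 1 / 8 := by rw [he]; linarith
  obtain ⟨K0, hK0, hblock⟩ := block e he0 (by linarith)
  obtain ⟨C1, hC1, hmass⟩ := prim_mass
  set K : ℕ := ⌈K0 + Real.exp (C1 / (e * c0 ^ 2))⌉₊ with hK
  have hKr : K0 + Real.exp (C1 / (e * c0 ^ 2)) ≤ K := Nat.le_ceil _
  have hexp : 0 < Real.exp (C1 / (e * c0 ^ 2)) := Real.exp_pos _
  have hK1 : (1 : ℝ) ≤ K := by linarith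
  have hK0r : (0 : ℝ) < K := by linarith
  have hlK : 0 ≤ Real.log K := Real.log_nonneg hK1
  have hexp1 : 1 ≤ Real.exp (C1 / (e * c0 ^ 2)) := Real.one_le_exp (by positivity)
  have hK2 : (2 : ℝ) ≤ K := by linarith
  refine ⟨K, K0 + Real.exp (2 * Real.log K / e), by exact_mod_cast hK2, by
    have := Real.exp_pos (2 * Real.log K / e); linarith, ?_⟩
  intro X Y N hX hXY hYX hYN hNX
  have hexp2 : 0 < Real.exp (2 * Real.log K / e) := Real.exp_pos _
  have hX1 : (1 : ℝ) ≤ X := by linarith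
  have hX0 : (0 : ℝ) < X := by linarith
  have hXYr : (K : ℝ) * X ≤ Y := by exact_mod_cast hXY
  have hYXr : (Y : ℝ) ≤ K * K * X := by exact_mod_cast hYX
  have hYNr : (K : ℝ) * Y ≤ N := by exact_mod_cast hYN
  have hXY' : (X : ℝ) ≤ Y := by nlinarith
  have hY0 : (0 : ℝ) < Y := by linarith
  have hNX' : (N : ℝ) ≤ (X : ℝ) ^ (2 - e) :=
    hNX.trans (Real.rpow_le_rpow_of_exponent_le hX1 (by rw [he]; linarith))
  have h1 := hblock X Y N (by linarith) (le_trans (by
    exact mul_le_mul_of_nonneg_right (by linarith) hX0.le) hXYr) (le_trans (by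
    exact mul_le_mul_of_nonneg_right (by linarith) hY0.le) hYNr) hNX'
  have h2 := hmass X Y (by exact_mod_cast hX1) (by exact_mod_cast hXY')
  rw [primFam_one] at h2
  set lam : ℝ := Real.log ((Y : ℝ) / X) with hlam
  set L : ℝ := Real.log Y with hL
  have hKXY : (K : ℝ) ≤ (Y : ℝ) / X := by rw [le_div_iff₀ hX0]; exact hXYr
  have hlam2 : C1 / (e * c0 ^ 2) ≤ lam := by
    rw [hlam, Real.le_log_iff_exp_le (by positivity)]
    linarith
  have hC1' : C1 ≤ e * (c0 ^ 2 * lam) := by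
    rw [div_le_iff₀ (by positivity)] at hlam2
    linarith
  have hlam0 : 0 < lam := by
    have : 0 < C1 / (e * c0 ^ 2) := by positivity
    linarith
  have hm : (1 - e) * (c0 ^ 2 * lam) ≤ ∑ q ∈ Finset.Ioc X Y, (phs q : ℝ) / (q : ℝ) ^ 2 := by
    have := (abs_le.mp h2).1
    linarith
  have hL0 : 0 ≤ L := Real.log_nonneg (by linarith)
  have hlX : 2 * Real.log K / e ≤ Real.log X := by
    rw [Real.le_log_iff_exp_le hX0]
    linarith
  have hlX2 : 2 * Real.log K ≤ e * Real.log X := by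
    rw [div_le_iff₀ he0] at hlX
    linarith
  have hLX : L ≤ Real.log X + 2 * Real.log K := by
    have h3 := Real.log_le_log hY0 hYXr
    rw [Real.log_mul (by positivity) hX0.ne', Real.log_mul hK0r.ne' hK0r.ne'] at h3
    rw [hL]; linarith
  have hlXL : Real.log X ≤ L := Real.log_le_log hX0 hXY'
  have hlow : (1 - e) * L ≤ Real.log X := by nlinarith
  have hex : ((1 - e) * L) * ((1 - e) * (c0 ^ 2 * lam)) ≤ expd X Y := by
    have h5 : ((1 - e) * L) * (∑ q ∈ Finset.Ioc X Y, (phs q : ℝ) / (q : ℝ) ^ 2) ≤ expd X Y := by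
      unfold expd
      rw [Finset.mul_sum]
      apply Finset.sum_le_sum
      intro q hq
      rw [Finset.mem_Ioc] at hq
      have h6 : Real.log X ≤ Real.log q := Real.log_le_log hX0 (by exact_mod_cast hq.1.le)
      have h7 : 0 ≤ (phs q : ℝ) / (q : ℝ) ^ 2 := by positivity
      calc ((1 - e) * L) * ((phs q : ℝ) / (q : ℝ) ^ 2) ≤
            Real.log q * ((phs q : ℝ) / (q : ℝ) ^ 2) :=
            mul_le_mul_of_nonneg_right (hlow.trans h6) h7
        _ = _ := by ring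
    refine le_trans ?_ h5
    exact mul_le_mul_of_nonneg_left hm (mul_nonneg (by linarith) hL0)
  have hN0 : (0 : ℝ) ≤ N := by positivity
  have hcl : 0 ≤ L * (c0 ^ 2 * lam) := by positivity
  have hkey : (1 + e) * (L * (c0 ^ 2 * lam)) ≤ (1 + ε) * expd X Y := by
    have h8 : (1 + ε) * (((1 - e) * L) * ((1 - e) * (c0 ^ 2 * lam))) ≤ (1 + ε) * expd X Y :=
      mul_le_mul_of_nonneg_left hex (by linarith)
    refine le_trans ?_ h8
    have h9 : (1 + ε) * (((1 - e) * L) * ((1 - e) * (c0 ^ 2 * lam))) =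
        ((1 + 8 * e) * ((1 - e) * (1 - e))) * (L * (c0 ^ 2 * lam)) := by
      rw [he]; ring
    rw [h9]
    apply mul_le_mul_of_nonneg_right _ hcl
    have h10 : (1 + 8 * e) * ((1 - e) * (1 - e)) - (1 + e) = e * (5 - 15 * e + 8 * (e * e)) := by
      ring
    have h11 : 0 ≤ e * (5 - 15 * e + 8 * (e * e)) := by
      apply mul_nonneg he0.le
      have : 0 ≤ e * e := by positivity
      linarith
    linarith
  calc _ ≤ _ := h1
    _ = N * ((1 + e) * (L * (c0 ^ 2 * lam))) := by ring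
    _ ≤ N * ((1 + ε) * expd X Y) := mul_le_mul_of_nonneg_left hkey hN0
    _ = _ := by ring

theorem main (ε : ℝ) (hε : 0 < ε) (hε1 : ε ≤ 1) : ∃ K : ℝ, 1 ≤ K ∧
    ∀ X Y N : ℕ, K ≤ X → K * X ≤ Y → K * Y ≤ N → (N : ℝ) ≤ (X : ℝ) ^ (2 - ε) →
    primFam X Y (fun _ χ => ‖psiC N χ‖ ^ 2) ≤ (1 + ε) * (N * expd X Y) := by
  obtain ⟨K, K1, hK2, hK1, hs⟩ := short ε hε hε1
  have hK : 1 ≤ K := by omega
  have hKr : (1 : ℝ) ≤ K := by exact_mod_cast hK
  refine ⟨max K K1, by exact hKr.trans (le_max_left _ _), ?_⟩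
  intro X Y N hX hXY hYN hNX
  have a1 : (K : ℝ) * X ≤ Y := le_trans (mul_le_mul_of_nonneg_right (le_max_left _ _)
    (by positivity)) hXY
  have a2 : (K : ℝ) * Y ≤ N := le_trans (mul_le_mul_of_nonneg_right (le_max_left _ _)
    (by positivity)) hYN
  have b1 : K * X ≤ Y := by exact_mod_cast a1
  have b2 : K * Y ≤ N := by exact_mod_cast a2
  have b0 : K1 ≤ X := (le_max_right _ _).trans hX
  have b00 : K ≤ X := by
    have := (le_max_left _ _).trans hX
    exact_mod_cast this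
  have key : ∀ m X : ℕ, Y - X ≤ m → K1 ≤ X → K ≤ X → K * X ≤ Y → (N : ℝ) ≤ (X : ℝ) ^ (2 - ε) →
      primFam X Y (fun _ χ => ‖psiC N χ‖ ^ 2) ≤ (1 + ε) * (N * expd X Y) := by
    intro m
    induction m with
    | zero =>
      intro X h1 h2 h3 h4 h5
      have h6 : Y ≤ X := by omega
      apply hs X Y N h2 h4 (h6.trans (by nlinarith)) b2 h5
    | succ m ih =>
      intro X h1 h2 h3 h4 h5
      by_cases h6 : Y ≤ K * K * X
      · exact hs X Y N h2 h4 h6 b2 h5
      · push Not at h6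
        have hX1 : 1 ≤ X := hK.trans h3
        have hXZ : X ≤ K * X := Nat.le_mul_of_pos_left X hK
        have hZY : K * X ≤ Y := h4
        have h7 : K * (K * X) ≤ Y := by rw [← mul_assoc]; exact h6.le
        rw [primFam_split X (K * X) Y hXZ hZY, expd_split X (K * X) Y hXZ hZY]
        have h8 := hs X (K * X) N h2 le_rfl (by nlinarith) (h7.trans ((Nat.le_mul_of_pos_left Y hK).trans b2)) h5
        have h9 := ih (K * X) (by
          have : X + 1 ≤ K * X := by nlinarith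
          omega) (h2.trans (by exact_mod_cast hXZ)) (h3.trans hXZ) h7 (h5.trans (by
          apply Real.rpow_le_rpow (by positivity) (by exact_mod_cast hXZ) (by linarith)))
        calc _ ≤ (1 + ε) * (N * expd X (K * X)) + (1 + ε) * (N * expd (K * X) Y) := add_le_add h8 h9
          _ = _ := by ring
  exact key (Y - X) X le_rfl b0 b00 b1 hNX

end BV

end H385
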